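import Pool.Agent.H443_recip.Chain

set_option autoImplicit false

open Filter Topology

namespace Pool.Agent.Results.MP_38ccf3_nt.EveryBase

/-- `x` is normal in base `r`: for every `k ≥ 1` and every `m` with `0 ≤ m < r ^ k`, the proportion of
`n < N` such that the `k` digits of `x` in positions `n + 1, ..., n + k` after the radix point, read as an
integer in base `r`, form the number `m` (that is, `⌊r ^ (n + k) * x⌋ % r ^ k = m`), tends to `1 / r ^ k`
as `N → ∞`. -/
def IsNormal (r : ℕ) (x : ℝ) : Prop :=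
  ∀ k : ℕ, 1 ≤ k → ∀ m : ℤ, 0 ≤ m → m < (r : ℤ) ^ k →
    Tendsto (fun N : ℕ =>
      (((Finset.range N).filter
          (fun n : ℕ => ⌊(r : ℝ) ^ (n + k) * x⌋ % (r : ℤ) ^ k = m)).card : ℝ) / (N : ℝ))
      atTop (𝓝 (1 / (r : ℝ) ^ k))

/-- There is a single real number `x` which is normal in every integer base `r ≥ 2` and whose reciprocal
`1 / x` is normal in no integer base `r ≥ 2`. In particular, in every fixed base `r`, the reciprocal of a
normal number need not be normal. -/
theorem result : ∃ x : ℝ, (∀ r : ℕ, 2 ≤ r → IsNormal r x) ∧ (∀ r : ℕ, 2 ≤ r → ¬ IsNormal r x⁻¹) :=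
  Pool.Agent.H443_recip.recip_all

end Pool.Agent.Results.MP_38ccf3_nt.EveryBase
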